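import Pool.Agent.X180.Orb.TowerP
import Pool.Agent.X180.OT.Forms

/-!
Composition of forms of subfields.
-/

set_option autoImplicit false
set_option linter.overlappingInstances false
set_option linter.unusedSectionVars false

open FF Pool.Agent.W602.GT Pool.Agent.W603.LV Pool.Agent.W619.PQ Pool.Agent.W619.Y
open Pool.Agent.TH585.SV Pool.Agent.Y172 Pool.Agent.Y191 Pool.Agent.X180.Iso Pool.Agent.X180.Tow
open Pool.Agent.X180.Orb

namespace Pool.Agent.X180.OD

variable {K : Type} [Field K] [Algebra ℂ K]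

/-- **Composition of forms of subfields.** -/
theorem comp_part {E F L : IntermediateField ℂ K} (hLF : L ≤ F) (hFE : F ≤ E) {N d0 d e κ lam : ℕ}
    (hL : Algebra.trdeg ℂ L = d0) (hE : Algebra.trdeg ℂ E = (d0 + (d + e) : ℕ))
    {X : Set (Place ℂ K)} {δ₁ δ₂ δ : Place ℂ K → ℝ} (hδ : ∀ P ∈ X, δ₁ P + δ₂ P ≤ δ P)
    (h1 : HasPart N X δ₁ F L d κ) (h2 : HasPart N X δ₂ E F e lam) :
    HasPart N X δ E L (d + e) (κ + lam) := by
  classical
  have hcLF : CharZero (dn F L) :=
    charZero_of_injective_algebraMap (algebraMap ℂ (dn F L)).injective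
  have hcLE : CharZero (dn E L) :=
    charZero_of_injective_algebraMap (algebraMap ℂ (dn E L)).injective
  obtain ⟨M, hM, t, ht, v, hv, hvF, hvi, hvest⟩ := h1
  obtain ⟨m, hm, u, hu, θ, hθ, hθE, hθi, hθest⟩ := h2
  obtain ⟨t', ht'⟩ : ∃ t' : Fin d → K, t' = fun j => ((t j : F) : K) := ⟨_, rfl⟩
  obtain ⟨u', hu'⟩ : ∃ u' : Fin e → K, u' = fun j => ((u j : E) : K) := ⟨_, rfl⟩
  obtain ⟨z, hz⟩ : ∃ z : Fin (d + e) → E, ∀ i, z i =
      Sum.elim (fun j => (⟨(t j : K), hFE (t j).2⟩ : E)) u (finSumFinEquiv.symm i) :=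
    ⟨_, fun _ => rfl⟩
  have hzK : ∀ b : Fin d ⊕ Fin e, ((z (finSumFinEquiv b) : E) : K) = Sum.elim t' u' b := by
    intro b
    rw [hz, Equiv.symm_apply_apply, ht', hu']
    rcases b with b | b <;> rfl
  -- the coordinates
  have htL : AlgebraicIndependent L t' := by
    have h3 : AlgebraicIndependent (dn F L) (fun j => ((t j : F) : K)) :=
      ht.1.map' (f := IsScalarTower.toAlgHom (dn F L) F K) (algebraMap F K).injective
    have h4 : AlgebraicIndependent (upF K (dn F L)) (fun j => ((t j : F) : K)) := ai_up.2 h3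
    rw [up_dn hLF] at h4
    rw [ht']
    exact h4
  have huF : AlgebraicIndependent F u' := by
    have h3 : AlgebraicIndependent (dn E F) (fun j => ((u j : E) : K)) :=
      hu.1.map' (f := IsScalarTower.toAlgHom (dn E F) E K) (algebraMap E K).injective
    have h4 : AlgebraicIndependent (upF K (dn E F)) (fun j => ((u j : E) : K)) := ai_up.2 h3
    rw [up_dn hFE] at h4
    rw [hu']
    exact h4
  have htF : ∀ i, IsAlgebraic F (t' i) := fun i => by
    rw [ht']
    exact isAlgebraic_algebraMap (t i)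
  have hzL : AlgebraicIndependent L (fun i => ((z i : E) : K)) := by
    have h3 := sum_ind hLF htL htF huF
    have h4 := h3.comp (fun i : Fin (d + e) => (finSumFinEquiv.symm i).swap)
      (Sum.swap_leftInverse.injective.comp finSumFinEquiv.symm.injective)
    convert h4 using 1
    funext i
    obtain ⟨b, rfl⟩ := finSumFinEquiv.surjective i
    rw [hzK, Function.comp_apply, Equiv.symm_apply_apply]
    rcases b with b | b <;> rfl
  have hzb : IsTranscendenceBasis (dn E L) z := by
    have h3 : AlgebraicIndependent (upF K (dn E L)) (fun i => ((z i : E) : K)) := by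
      rw [up_dn (hLF.trans hFE)]
      exact hzL
    have h4 : AlgebraicIndependent (dn E L) z :=
      AlgebraicIndependent.of_comp (IsScalarTower.toAlgHom (dn E L) E K) (ai_up.1 h3)
    apply h4.isTranscendenceBasis_of_lift_trdeg_le_of_finite
    rw [Pool.Agent.X180.OT.trdeg_step (hLF.trans hFE) hL hE]
    simp
  -- the sections
  obtain ⟨g, hg⟩ : ∃ g : Fin (κ + 1) → Fin (lam + 1) → K, ∀ a b, g a b =
      v 0 ^ (m - 1) * v a * (θ 0 ^ (M - 1) * θ b) := ⟨_, fun _ _ => rfl⟩
  have hg0 : ∀ a b, g a b ≠ 0 := fun a b => by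
    rw [hg]
    exact mul_ne_zero (mul_ne_zero (pow_ne_zero _ (hv 0)) (hv a))
      (mul_ne_zero (pow_ne_zero _ (hθ 0)) (hθ b))
  have hSm : ∀ z : K, z ∈ algebraicClosure E K ↔ IsAlgebraic E z := fun z =>
    mem_algebraicClosure_iff
  have hvE : ∀ a, IsAlgebraic E (v a) := fun a => alg_mono hFE (hvF a)
  have hgE : ∀ a b, IsAlgebraic E (g a b) := fun a b => by
    rw [← hSm, hg]
    exact mul_mem (mul_mem (pow_mem ((hSm _).2 (hvE 0)) _) ((hSm _).2 (hvE a)))
      (mul_mem (pow_mem ((hSm _).2 (hθE 0)) _) ((hSm _).2 (hθE b)))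
  have hest : ∀ P ∈ X, Divisorial N P → ∀ D : Fin (d + e) → Derivation ℂ K K,
      (∀ i, DerReg P (D i)) → (∀ i, ∀ f ∈ L, D i f = 0) → ∀ a b,
      GeR P (-((M * m : ℕ) * δ P)) ((mtx (fun j => ((z j : E) : K)) D).det ^ (M * m) * g a b) := by
    intro P hPX hPd D hD hDL a b
    have hbig : (mtx (fun j => ((z j : E) : K)) D).det = (big t' u' D).det := by
      rw [← Matrix.det_submatrix_equiv_self finSumFinEquiv]
      congr 1
      ext i j
      change D (finSumFinEquiv i) ((z (finSumFinEquiv j) : E) : K) = _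
      rw [hzK]
      rfl
    rw [hbig]
    by_cases h0 : (big t' u' D).det = 0
    · left
      rw [h0, zero_pow (Nat.mul_pos hM hm).ne', zero_mul]
    obtain ⟨E₁, G, hE₁, hG, hE₁L, hGL, hGt, hdet⟩ := split_gen (P := P) (D := D) hD h0
      (L : Set K) (fun i f hf => hDL i f hf)
    have hGE : ∀ i, ∀ f ∈ F, G i f = 0 := fun i => vert_kills ht
      (fun f hf => hGL i f (by rw [up_dn hLF] at hf; exact hf)) fun j => by
        have := hGt i j
        rw [ht'] at this
        exact this
    have h1 : ∀ b, GeR P (-(m * δ₂ P)) ((mtx u' G).det ^ m * θ b) := fun b => by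
      rw [hu']
      exact hθest P hPX hPd G hG hGE b
    have h2 : ∀ a, GeR P (-(M * δ₁ P)) ((mtx t' E₁).det ^ M * v a) := fun a => by
      rw [ht']
      exact hvest P hPX hPd E₁ hE₁ (fun i f hf => hE₁L i f hf) a
    have h3 := (((h2 0).pow (m - 1)).mul (h2 a)).mul (((h1 0).pow (M - 1)).mul (h1 b))
    have e1 : ((mtx t' E₁).det ^ M * v 0) ^ (m - 1) * ((mtx t' E₁).det ^ M * v a) *
        (((mtx u' G).det ^ m * θ 0) ^ (M - 1) * ((mtx u' G).det ^ m * θ b)) =
        ((mtx t' E₁).det * (mtx u' G).det) ^ (M * m) * g a b := by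
      rw [hg]
      obtain ⟨m', rfl⟩ := Nat.exists_eq_succ_of_ne_zero hm.ne'
      obtain ⟨M', rfl⟩ := Nat.exists_eq_succ_of_ne_zero hM.ne'
      simp only [Nat.succ_eq_add_one, Nat.add_sub_cancel]
      have e2 : (mtx t' E₁).det ^ ((M' + 1) * (m' + 1)) =
          ((mtx t' E₁).det ^ (M' + 1)) ^ m' * (mtx t' E₁).det ^ (M' + 1) := by
        rw [← pow_mul, ← pow_add]
        congr 1
      have e3 : (mtx u' G).det ^ ((M' + 1) * (m' + 1)) =
          ((mtx u' G).det ^ (m' + 1)) ^ M' * (mtx u' G).det ^ (m' + 1) := by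
        rw [← pow_mul, ← pow_add]
        congr 1
        ring
      rw [mul_pow ((mtx t' E₁).det), e2, e3, mul_pow, mul_pow]
      ring
    rw [e1] at h3
    have h4 : GeR P (-((M * m : ℕ) * δ P))
        (((mtx t' E₁).det * (mtx u' G).det) ^ (M * m) * g a b) := by
      refine h3.mono ?_
      have hM1 : ((M - 1 : ℕ) : ℝ) = M - 1 := by
        rw [Nat.cast_sub hM]
        simp
      have hm1 : ((m - 1 : ℕ) : ℝ) = m - 1 := by
        rw [Nat.cast_sub hm]
        simp
      rw [hM1, hm1]
      push_cast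
      have h5 := mul_le_mul_of_nonneg_left (hδ P hPX)
        (mul_nonneg (Nat.cast_nonneg (α := ℝ) M) (Nat.cast_nonneg (α := ℝ) m))
      nlinarith
    rcases hdet with h5 | h5
    · rw [h5]
      exact h4
    · rw [h5]
      rcases Nat.even_or_odd (M * m) with h6 | h6
      · rw [h6.neg_pow]
        exact h4
      · rw [h6.neg_pow, neg_mul]
        exact h4.neg
  refine ⟨M * m, Nat.mul_pos hM hm, z, hzb, Fin.cons (g 0 0) fun i =>
    Sum.elim (fun i => g i.succ 0) (fun i => g 0 i.succ) (finSumFinEquiv.symm i),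
    fun j => ?_, fun j => ?_, ?_, fun P hP hPd D hD hDL j => ?_⟩
  · refine Fin.cases ?_ (fun i => ?_) j
    · exact hg0 0 0
    · rw [Fin.cons_succ]
      rcases finSumFinEquiv.symm i with i | i
      · exact hg0 _ _
      · exact hg0 _ _
  · refine Fin.cases ?_ (fun i => ?_) j
    · exact hgE 0 0
    · rw [Fin.cons_succ]
      rcases finSumFinEquiv.symm i with i | i
      · exact hgE _ _
      · exact hgE _ _
  · have h0 : ∀ i, IsAlgebraic F (v (i : Fin κ).succ / v 0) := fun i => by
      rw [div_eq_mul_inv]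
      exact (hvF _).mul (hvF _).inv
    have h1 := sum_ind hLF hvi h0 hθi
    have h2 := h1.comp (fun i : Fin (κ + lam) => (finSumFinEquiv.symm i).swap)
      (Sum.swap_leftInverse.injective.comp finSumFinEquiv.symm.injective)
    convert h2 using 1
    funext i
    rw [Fin.cons_succ, Fin.cons_zero, Function.comp_apply]
    have hv0 := hv 0
    have hθ0 := hθ 0
    rcases finSumFinEquiv.symm i with i | i
    · change g i.succ 0 / g 0 0 = v i.succ / v 0
      rw [hg, hg]
      have := pow_ne_zero (m - 1) hv0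
      have := pow_ne_zero (M - 1) hθ0
      field_simp
    · change g 0 i.succ / g 0 0 = θ i.succ / θ 0
      rw [hg, hg]
      have := pow_ne_zero (m - 1) hv0
      have := pow_ne_zero (M - 1) hθ0
      field_simp
  · refine Fin.cases ?_ (fun i => ?_) j
    · exact hest P hP hPd D hD hDL 0 0
    · rw [Fin.cons_succ]
      rcases finSumFinEquiv.symm i with i | i
      · exact hest P hP hPd D hD hDL _ _
      · exact hest P hP hPd D hD hDL _ _

end Pool.Agent.X180.OD
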