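import Pool.Agent.X180.OD.Defs
import Pool.Agent.X180.OD.Comp
import Pool.Agent.X180.OC.Tow

/-!
Towers with constant orbifold steps: the forms, general version.
-/

set_option autoImplicit false
set_option linter.overlappingInstances false

open FF Pool.Agent.W602.GT Pool.Agent.Y172 Pool.Agent.Y191 Pool.Agent.X180.Orb
open Pool.Agent.TH585.SV
open Pool.Agent.X180.TP (dims exists_idx)
open Pool.Agent.X180.Tow (HasForms dn trdeg_dn hor_nonneg hor_le up_dn)
open Pool.Agent.X180.Iso (hor)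

namespace Pool.Agent.X180.OD

variable {K : Type} [Field K] [Algebra ℂ K]

/-- the forms of a constant orbifold step -/
theorem part_const {E L : IntermediateField ℂ K} (hLE : L ≤ E) {N d e' e lam : ℕ}
    (hK : Algebra.trdeg ℂ K = N) (hN : N = d + e') (hL : Algebra.trdeg ℂ L = d)
    (hE : Algebra.trdeg ℂ E = (d + e : ℕ)) {S : Set (Place ℂ K)} {δ : Place ℂ K → ℝ}
    (hδ : ∀ P ∈ S, 0 ≤ δ P) (h : ConstantFibres S δ E L e lam) :
    HasPart N S (fun P => hor L δ P - hor E δ P) E L e lam := by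
  obtain ⟨K', _, _, _, _, _, M, a, hess, hM, hME, hML, ha, ⟨m, hm, ω, hω, D0, hD0, hDi⟩, hH⟩ := h
  refine Pool.Agent.X180.OC.const_part (m := m) (ω := ω) (D0 := D0) hK hLE
    (Pool.Agent.X180.Iso.trdeg_rel (d := d) (hK.trans (by rw [hN])) hL)
    (Pool.Agent.X180.OT.trdeg_step hLE hL hE) M hM hML hME hm
    (fun P hP Q ε hQ p ν hp => ha p ⟨P, hP, Q, ε, ν, hQ, hp⟩) (fun b => (hω b).1)
    (fun b P hP Q ε hQ p ν hp hpd D hD => (hω b).2 p ⟨P, hP, Q, ε, ν, hQ, hp⟩ hpd D hD) hD0 hDi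
    (fun P hP => sub_nonneg.2 (hor_le hLE (hδ P hP))) ?_
  intro P hP htr hE' Q ε hQ
  have h1 : hor L δ P - hor E δ P = δ P := by
    unfold hor
    rw [if_pos htr, if_neg hE', sub_zero]
  rw [h1]
  refine hH P hP htr ?_ Q ε hQ
  push Not at hE'
  exact hE'

theorem part_step {N l : ℕ} {S : Set (Place ℂ K)} {δ : Place ℂ K → ℝ} (hδ : ∀ P ∈ S, 0 ≤ δ P)
    {E : Fin (l + 1) → IntermediateField ℂ K}
    {D : Fin (l + 1) → ℕ} {e lam : Fin l → ℕ} (hT : IsTower S δ E D e lam)
    (hN : Algebra.trdeg ℂ K = N) (i : Fin l) :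
    HasPart N S (fun P => hor (E i.castSucc) δ P - hor (E i.succ) δ P) (E i.succ) (E i.castSucc)
      (e i) (lam i) := by
  have h1 : ∃ e'', N = D i.castSucc + e'' := by
    have h2 : D i.castSucc ≤ N := by
      have h3 : Algebra.trdeg ℂ (E i.castSucc) ≤ Algebra.trdeg ℂ K := by
        rw [← _root_.trdeg_add_eq ℂ (E i.castSucc) (A := K)]
        exact self_le_add_right _ _
      rw [hT.1, hN] at h3
      exact_mod_cast h3
    exact ⟨N - D i.castSucc, by omega⟩
  obtain ⟨e'', he''⟩ := h1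
  rcases (hT.2 i).2.2 with h | h
  · exact Pool.Agent.X180.OT.part_orb (hT.2 i).1 hN he'' (hT.1 _) (by rw [hT.1, (hT.2 i).2.1]) hδ h
  · exact part_const (hT.2 i).1 hN he'' (hT.1 _) (by rw [hT.1, (hT.2 i).2.1]) hδ h

/-- **Towers.** -/
theorem tower_forms {N e' lam' l : ℕ}
    {S : Set (Place ℂ K)} {δ : Place ℂ K → ℝ} (hδ : ∀ P ∈ S, 0 ≤ δ P)
    {E : Fin (l + 1) → IntermediateField ℂ K}
    {D : Fin (l + 1) → ℕ} {e lam : Fin l → ℕ} (hT : IsTower S δ E D e lam)
    (hN : Algebra.trdeg ℂ K = N) (hNe : N = D (Fin.last l) + e')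
    (h0 : HasForms N S (hor (E (Fin.last l)) δ) (E (Fin.last l)) e' lam') :
    HasForms N S (hor (E 0) δ) (E 0) (∑ i, e i + e') (∑ i, lam i + lam') :=
  chain_part hN l E (fun i => (hT.2 i).1) D hT.1 e lam (fun i => (hT.2 i).2.1) hNe
    (fun i => part_step hδ hT hN i) h0

/-- the trivial forms -/
theorem triv_part {N : ℕ} {X : Set (Place ℂ K)} {δ : Place ℂ K → ℝ} (L : IntermediateField ℂ K)
    (hδ : ∀ P ∈ X, 0 ≤ δ P) : HasPart N X δ L L 0 0 := by
  refine ⟨1, one_pos, fun j => j.elim0, ?_, fun _ => 1, fun _ => one_ne_zero,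
    fun _ => isAlgebraic_one, algebraicIndependent_empty_type, fun P hP _ D _ _ b => ?_⟩
  · have h1 : AlgebraicIndependent (dn L L) (fun j : Fin 0 => (j.elim0 : L)) :=
      algebraicIndependent_empty_type
    refine h1.isTranscendenceBasis_iff_isAlgebraic.2 ⟨fun z => ?_⟩
    have h2 : z ∈ dn L L := z.2
    have h3 : IsAlgebraic (dn L L) z := isAlgebraic_algebraMap (⟨z, h2⟩ : dn L L)
    exact h3.extendScalars (algebraMap (dn L L) _).injective
  · right
    rw [Matrix.det_isEmpty, one_pow, one_mul, P.ord_one]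
    have := hδ P hP
    push_cast
    linarith

/-- **Chains of fibrations.** -/
theorem chain_pp {N : ℕ} {X : Set (Place ℂ K)}
    {δ : Place ℂ K → ℝ} : ∀ (l : ℕ) (E : Fin (l + 1) → IntermediateField ℂ K)
    (_ : ∀ i : Fin l, E i.castSucc ≤ E i.succ) (D : Fin (l + 1) → ℕ)
    (_ : ∀ i, Algebra.trdeg ℂ (E i) = D i) (e lam : Fin l → ℕ)
    (_ : ∀ i : Fin l, D i.succ = D i.castSucc + e i)
    (_ : ∀ i : Fin l, HasPart N X (fun P => hor (E i.castSucc) δ P - hor (E i.succ) δ P)
      (E i.succ) (E i.castSucc) (e i) (lam i)),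
    HasPart N X (fun P => hor (E 0) δ P - hor (E (Fin.last l)) δ P) (E (Fin.last l)) (E 0)
      (∑ i, e i) (∑ i, lam i) := by
  intro l
  induction l with
  | zero =>
    intro E _ D _ e lam _ _
    have h1 := triv_part (N := N) (X := X)
      (δ := fun P => hor (E 0) δ P - hor (E (Fin.last 0)) δ P) (E 0) (fun P _ => by
        change 0 ≤ hor (E 0) δ P - hor (E 0) δ P
        rw [sub_self])
    simpa using h1
  | succ l ih =>
    intro E hE D hD e lam he hη
    have h1 : HasPart N X (fun P => hor (E (Fin.succ 0)) δ P - hor (E (Fin.last (l + 1))) δ P)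
        (E (Fin.last (l + 1))) (E (Fin.succ 0)) (∑ i : Fin l, e i.succ)
        (∑ i : Fin l, lam i.succ) :=
      ih (fun i => E i.succ) (fun i => hE i.succ) (fun i => D i.succ)
        (fun i => hD i.succ) (fun i => e i.succ) (fun i => lam i.succ) (fun i => he i.succ)
        (fun i => hη i.succ)
    have hle : E (Fin.castSucc 0) ≤ E (Fin.succ 0) := hE 0
    have hle2 : E (Fin.succ 0) ≤ E (Fin.last (l + 1)) := by
      have h2 : ∀ (l : ℕ) (E : Fin (l + 1) → IntermediateField ℂ K),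
          (∀ i : Fin l, E i.castSucc ≤ E i.succ) → E 0 ≤ E (Fin.last l) := by
        intro l
        induction l with
        | zero => intro E _; exact le_rfl
        | succ l ih2 =>
          intro E h
          exact (h 0).trans (ih2 (fun i => E i.succ) fun i => h i.succ)
      exact h2 l (fun i => E i.succ) fun i => hE i.succ
    have hsum : D (Fin.last (l + 1)) = D 0 + (e 0 + ∑ i : Fin l, e i.succ) := by
      rw [← Fin.sum_univ_succ]
      exact dims he
    have h3 := comp_part hle hle2 (hD (Fin.castSucc 0)) (by rw [hD, hsum]; rfl)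
      (δ := fun P => hor (E 0) δ P - hor (E (Fin.last (l + 1))) δ P) (fun P _ => by
        change hor (E (Fin.castSucc 0)) δ P - hor (E (Fin.succ 0)) δ P +
          (hor (E (Fin.succ 0)) δ P - hor (E (Fin.last (l + 1))) δ P) ≤ _
        rw [sub_add_sub_cancel]
        rfl) (hη 0) h1
    rw [Fin.sum_univ_succ, Fin.sum_univ_succ]
    exact h3

end Pool.Agent.X180.OD
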