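import Pool.Agent.X180.OD.BaseDefs
import Pool.Agent.X180.OD.Tow
import Pool.Agent.X180.OP.Can

/-!
Fibrations over orbifold bases.
-/

set_option autoImplicit false
set_option linter.overlappingInstances false

open FF Pool.Agent.W602.GT Pool.Agent.Y172 Pool.Agent.Y191 Pool.Agent.X180.Orb
open Pool.Agent.X180.TP (dims exists_idx)
open Pool.Agent.X180.Tow (HasForms dn trdeg_dn hor_nonneg hor_le)
open Pool.Agent.X180.Iso (hor)
open Pool.Agent.X180.OP

namespace Pool.Agent.X180.OD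

variable {K : Type} [Field K] [Algebra ℂ K]

theorem over_self {Q P : Place ℂ K} {ε : ℕ} (h : Over Q P ε) : ε = 1 ∧ ∀ f : K, Q.ord f = P.ord f := by
  have h1 : ε = 1 := by
    obtain ⟨t, -, ht⟩ := Q.surj
    have h2 : Q.ord t = ε * P.ord t := h.2 t
    rw [ht] at h2
    have h3 : (ε : ℤ) ∣ 1 := ⟨_, h2⟩
    exact Nat.dvd_one.1 (by exact_mod_cast h3)
  refine ⟨h1, fun f => ?_⟩
  have h2 : Q.ord f = ε * P.ord f := h.2 f
  rw [h2, h1]
  simp

/-- the orbifold base as a constant orbifold -/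
theorem base_const {F L : IntermediateField ℂ K} [Algebra.EssFiniteType ℂ F] (hL : L = ⊥) {d k : ℕ}
    (hF : Algebra.trdeg ℂ F = d) {S : Set (Place ℂ K)} (h : BaseKodGe S F d k) :
    ConstantFibres S (fun _ => 0) F L d k := by
  classical
  subst hL
  obtain ⟨m, hm, ω, hω, D0, hD0, hDi⟩ := h
  obtain ⟨T, hT⟩ : ∃ T : Place ℂ F → Set ℕ, ∀ p ν, ν ∈ T p ↔ ∃ P ∈ S, Over P p ν :=
    ⟨fun p => {ν | ∃ P ∈ S, Over P p ν}, fun _ _ => Iff.rfl⟩
  obtain ⟨a, ha⟩ : ∃ a : Place ℂ F → ℝ, ∀ p, a p = 1 / ((sInf (T p) : ℕ) : ℝ) := ⟨_, fun _ => rfl⟩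
  have hup : ∀ {Q P : Place ℂ K} {ε : ℕ} {p : Place ℂ F} {ν : ℕ}, Over Q P ε → Over Q p ν →
      Over P p ν := by
    intro Q P ε p ν hQ hp
    refine ⟨hp.1, fun f => ?_⟩
    rw [← (over_self hQ).2]
    exact hp.2 f
  refine ⟨K, inferInstance, inferInstance, inferInstance, inferInstance, inferInstance, F, a,
    inferInstance, hF, fun z hz => ?_, fun x hx => ?_, fun p _ => ?_,
    ⟨m, hm, ω, fun b => ⟨(hω b).1, ?_⟩, D0, hD0, hDi⟩, ?_⟩
  · exact isAlgebraic_algebraMap (⟨z, mem_upF.2 ⟨z, hz, rfl⟩⟩ : upF K F)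
  · have h1 : AlgebraicIndependent ℂ (fun j => ((x j : F) : K)) :=
      hx.map' (f := F.val) F.val.injective
    have h2 : Algebra.IsAlgebraic ℂ (upF K (⊥ : IntermediateField ℂ K)) := by
      refine ⟨fun z => ?_⟩
      obtain ⟨a, ha, hz⟩ := mem_upF.1 z.2
      obtain ⟨c, rfl⟩ := IntermediateField.mem_bot.1 ha
      have h3 : z = algebraMap ℂ (upF K (⊥ : IntermediateField ℂ K)) c := Subtype.ext hz.symm
      rw [h3]
      exact isAlgebraic_algebraMap c
    exact h1.extendScalars _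
  · rw [ha]
    positivity
  · rintro p ⟨P, hP, Q, ε, ν, hQ, hp⟩ _ D hD
    have hne : (T p).Nonempty := ⟨ν, (hT p ν).2 ⟨P, hP, hup hQ hp⟩⟩
    obtain ⟨P', hP', hp'⟩ := (hT p _).1 (Nat.sInf_mem hne)
    have h1 := (hω b).2 P' hP' p _ hp' D hD
    rw [ha]
    exact h1
  · intro P hP _ _ Q ε hQ
    obtain ⟨rfl, hQP⟩ := over_self hQ
    refine ⟨fun _ => by simp, fun p ν hp => ?_⟩
    have hν : ν ∈ T p := (hT p ν).2 ⟨P, hP, hup hQ hp⟩
    have h1 : sInf (T p) ≤ ν := Nat.sInf_le hν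
    obtain ⟨P', -, hp'⟩ := (hT p _).1 (Nat.sInf_mem ⟨ν, hν⟩)
    have h2 : (0 : ℝ) < ((sInf (T p) : ℕ) : ℝ) := by exact_mod_cast hp'.1
    have h3 : ((sInf (T p) : ℕ) : ℝ) ≤ ν := by exact_mod_cast h1
    rw [ha, Nat.cast_one, sub_zero, mul_one, mul_one_div, le_div_iff₀ h2, one_mul]
    exact h3

/-- the forms, for towers of general orbifolds -/
theorem dcan_top {N l c : ℕ}
    {E : Fin (l + 1) → IntermediateField ℂ K} {D : Fin (l + 1) → ℕ} {e lam : Fin l → ℕ}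
    {r s : Fin c → ℕ} {y : Fin (N + 1) → K}
    (hy : IsCanonicalVariety y (D (Fin.last l) + ∑ j, r j))
    (hT : IsTower {P | IsPrimeDivisor y P} (fun _ => 0) E D e lam) {w : ∀ j, Fin (s j) → ℚ}
    (hF : CanonicalFibres y (E (Fin.last l)) r s w) (hws : ∀ j, (r j + 1 : ℚ) ≤ ∑ i, w j i) :
    HasForms (D 0 + (∑ i, e i + ∑ j, r j)) {P | IsPrimeDivisor y P} (fun _ => 0) (E 0)
      (∑ i, e i + ∑ j, r j) (∑ i, lam i + big r s w) := by
  obtain ⟨hw, K', _, _, _, _, _, B, u, hB, hu, hH, hC⟩ := hF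
  obtain ⟨κ, hκ, hκs⟩ := exists_idx r s w
  have h0 : HasForms (D (Fin.last l) + ∑ j, r j) {P | IsPrimeDivisor y P}
      (hor (E (Fin.last l)) fun _ => 0) (E (Fin.last l)) (∑ j, r j)
      (Pool.Agent.X180.TP.big r s w) :=
    lc_low (N := D (Fin.last l) + ∑ j, r j)
      (Pool.Agent.X180.Iso.trdeg_rel' hy.2.1 (hT.1 _)) hB finSigmaFinEquiv hu
      (fun j i => ((hw j).2 i).1) hws hκ hκs
      (fun P hP => hor_nonneg le_rfl) (Pool.Agent.X180.Iso.lcHor_hor hH)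
  have h1 := (tower_forms (fun _ _ => le_rfl) hT hy.2.1 rfl h0).mono (δ' := fun _ => 0)
    (fun P _ => (hor_zero' _ P).le)
  have hn : D (Fin.last l) + ∑ j, r j = D 0 + (∑ i, e i + ∑ j, r j) := by
    rw [dims fun i => (hT.2 i).2.1, add_assoc]
  rw [hn] at h1
  exact h1

/-- **Nonvanishing.** -/
theorem dcan_non {N l c k : ℕ}
    {E : Fin (l + 1) → IntermediateField ℂ K} {D : Fin (l + 1) → ℕ} {e lam : Fin l → ℕ}
    {r s : Fin c → ℕ} {y : Fin (N + 1) → K}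
    (hy : IsCanonicalVariety y (D (Fin.last l) + ∑ j, r j))
    (hT : IsTower {P | IsPrimeDivisor y P} (fun _ => 0) E D e lam)
    {w : ∀ j, Fin (s j) → ℚ} (hF : CanonicalFibres y (E (Fin.last l)) r s w)
    (hbase : ∀ lam' : ℕ, HasForms (D 0 + (∑ i, e i + ∑ j, r j)) {P | IsPrimeDivisor y P}
      (fun _ => 0) (E 0) (∑ i, e i + ∑ j, r j) lam' →
      KodairaGe (D 0 + (∑ i, e i + ∑ j, r j)) {P | IsPrimeDivisor y P} (fun _ => 0) (k + lam')) :
    CanonicalNonvanishing y (D (Fin.last l) + ∑ j, r j) (k + ∑ i, lam i + big r s w) r s w := by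
  have h1 := dcan_top hy hT hF
  obtain ⟨hw, K', _, _, _, _, _, B, u, hB, hu, hH, hC⟩ := hF
  have hn : D (Fin.last l) + ∑ j, r j = D 0 + (∑ i, e i + ∑ j, r j) := by
    rw [dims fun i => (hT.2 i).2.1, add_assoc]
  refine Pool.Agent.X180.TP.nonvanishing_of hy (by omega) hw hB hu hC fun hws => ?_
  have h2 := hbase _ (h1 hws)
  rw [← hn, ← add_assoc k] at h2
  exact h2

/-- **Abundance.** -/
theorem dcan_ab {N l c : ℕ}
    {E : Fin (l + 1) → IntermediateField ℂ K} {D : Fin (l + 1) → ℕ} {e lam : Fin l → ℕ}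
    {r s : Fin c → ℕ} {y : Fin (N + 1) → K}
    (hy : IsCanonicalVariety y (D (Fin.last l) + ∑ j, r j))
    (hT : IsTower {P | IsPrimeDivisor y P} (fun _ => 0) E D e lam) (hle : ∀ i, lam i = e i)
    {w : ∀ j, Fin (s j) → ℚ} (hF : CanonicalFibres y (E (Fin.last l)) r s w)
    (hbase : ∀ lam' : ℕ, HasForms (D 0 + (∑ i, e i + ∑ j, r j)) {P | IsPrimeDivisor y P}
      (fun _ => 0) (E 0) (∑ i, e i + ∑ j, r j) lam' →
      KodairaGe (D 0 + (∑ i, e i + ∑ j, r j)) {P | IsPrimeDivisor y P} (fun _ => 0)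
        (D 0 + lam')) :
    CanonicalAbundance y (D (Fin.last l) + ∑ j, r j) (D (Fin.last l)) r s w := by
  have h1 := dcan_top hy hT hF
  obtain ⟨hw, K', _, _, _, _, _, B, u, hB, hu, hH, hC⟩ := hF
  have hsum : D (Fin.last l) = D 0 + ∑ i, e i := dims fun i => (hT.2 i).2.1
  have hn : D (Fin.last l) + ∑ j, r j = D 0 + (∑ i, e i + ∑ j, r j) := by
    rw [hsum, add_assoc]
  refine Pool.Agent.X180.TP.abundance_of hy hw hB hu hC fun hws => ?_
  have h2 := h1 hws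
  rw [show ∑ i, lam i = ∑ i, e i from Finset.sum_congr rfl fun i _ => hle i] at h2
  have h3 := hbase _ h2
  rw [← hn, ← add_assoc (D 0), ← hsum] at h3
  exact h3

/-- the orbifold base -/
theorem orb_base {F : IntermediateField ℂ K} [Algebra.EssFiniteType ℂ F] {d e k lam : ℕ}
    (hK : Algebra.trdeg ℂ K = (d + e : ℕ)) (hF : Algebra.trdeg ℂ F = d) {S : Set (Place ℂ K)}
    (h : BaseKodGe S F d k) (h0 : HasForms (d + e) S (fun _ => 0) F e lam) :
    KodairaGe (d + e) S (fun _ => 0) (k + lam) := by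
  have h1 := part_const (bot_le : (⊥ : IntermediateField ℂ K) ≤ F) (d := 0) (e' := d + e) hK
    (zero_add _).symm (by
      have h3 : Algebra.trdeg ℂ (⊥ : IntermediateField ℂ K) = 0 := by
        refine trdeg_eq_zero_iff.2 ?_
        infer_instance
      rw [h3]; rfl) (by rw [zero_add]; exact hF) (fun _ _ => le_rfl) (base_const rfl hF h)
  have h2 : HasPart (d + e) S (fun _ => 0) F ⊥ d k := by
    refine h1.mono fun P _ => ?_
    unfold hor
    split_ifs <;> simp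
  have h3 := tower_part bot_le (Pool.Agent.X180.Iso.trdeg_rel hK hF) (δ := fun _ => 0)
    (fun P _ => by simp) h2 h0
  exact point_kod h3

end Pool.Agent.X180.OD
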