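import Pool.Agent.X180.OD.Defs
import Pool.Agent.X180.OP.CanDefs

/-!
Definitions: the Kodaira dimension of the orbifold base of a fibration.
-/

set_option autoImplicit false

open FF Pool.Agent.W602.GT Pool.Agent.Y172 Pool.Agent.Y191

namespace Pool.Agent.X180.OD

variable {K : Type} [Field K] [Algebra ℂ K]

/-- Let `K` be the function field of `X`, `S` the set of the prime divisors of `X`, and `F` the
function field of a variety `Y` of dimension `d` with a dominant rational map `f : X ⇢ Y`. The
Kodaira dimension of the orbifold base of `f` is at least `k`: for some `m > 0` there are `m`-canonical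
forms on `Y`, whose ratios contain `k` algebraically independent functions (a nonzero form, if
`k = 0`), with poles of order at most `m (1 - 1 / ν)` at the place `p` of `F` if `P` is a prime
divisor of `X` over `p` with the multiplicity `ν`. (So the coefficient of `p` in the orbifold divisor
is `1 - 1 / ν` for the smallest multiplicity `ν` of a prime divisor of `X` over `p`.) -/
def BaseKodGe (S : Set (Place ℂ K)) (F : IntermediateField ℂ K) (d k : ℕ) : Prop :=
  ∃ m : ℕ, 0 < m ∧ ∃ ω : Fin (k + 1) → (Fin d → Derivation ℂ F F) → F,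
    (∀ b, IsPluri m (ω b) ∧ ∀ P ∈ S, ∀ (p : Place ℂ F) (ν : ℕ), Over P p ν →
      ∀ D : Fin d → Derivation ℂ F F, (∀ i, DerReg p (D i)) →
        ω b D = 0 ∨ -(m * (1 - 1 / ν)) ≤ (p.ord (ω b D) : ℝ)) ∧
    ∃ D, ω 0 D ≠ 0 ∧ AlgebraicIndependent ℂ (fun i : Fin k => ω i.succ D / ω 0 D)

end Pool.Agent.X180.OD
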