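import Pool.Agent.X180.OD.Tow

/-!
Tensor differentials from towers.
-/

set_option autoImplicit false
set_option linter.overlappingInstances false

open FF Pool.Agent.W602.GT Pool.Agent.Y172 Pool.Agent.Y191 Pool.Agent.X180.Orb
open Pool.Agent.W603.LV
open Pool.Agent.TH585.SV
open Pool.Agent.X180.TP (dims exists_idx)
open Pool.Agent.X180.Tow (HasForms dn trdeg_dn hor_nonneg hor_le up_dn)
open Pool.Agent.X180.Iso (hor)

namespace Pool.Agent.X180.OD

variable {K : Type} [Field K] [Algebra ℂ K]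

/-- tensors from the forms of a subfield -/
theorem part_tens {E L : IntermediateField ℂ K} (hL : L = ⊥) {N p κ : ℕ} {X : Set (Place ℂ K)}
    (h : HasPart N X (fun _ => 0) E L p κ) :
    ∃ M : ℕ, 0 < M ∧ ∃ (ω : MultilinearMap K (fun _ : Fin (M * p) => Derivation ℂ K K) K)
      (f : Fin (κ + 1) → K), ω ≠ 0 ∧ f 0 = 1 ∧
      AlgebraicIndependent ℂ (fun i : Fin κ => f i.succ) ∧
      ∀ b, ∀ P ∈ X, Divisorial N P → ∀ D : Fin (M * p) → Derivation ℂ K K,
        (∀ j, DerReg P (D j)) → P.Reg (f b * ω D) := by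
  classical
  subst hL
  obtain ⟨M, hM, t, ht, v, hv, -, hvi, hest⟩ := h
  obtain ⟨t', ht'⟩ : ∃ t' : Fin p → K, t' = fun j => ((t j : E) : K) := ⟨_, rfl⟩
  rw [← ht'] at hest
  have hti : AlgebraicIndependent ℂ t' := by
    have h3 : AlgebraicIndependent (dn E ⊥) (fun j => ((t j : E) : K)) :=
      ht.1.map' (f := IsScalarTower.toAlgHom (dn E ⊥) E K) (algebraMap E K).injective
    rw [ht']
    exact h3.restrictScalars (algebraMap ℂ (dn E ⊥)).injective
  obtain ⟨D0, hD0⟩ := exists_dual hti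
  refine ⟨M, hM, tns t' (v 0) M, fun b => v b / v 0, fun h0 => ?_, div_self (hv 0),
    hvi.restrictScalars (algebraMap ℂ (⊥ : IntermediateField ℂ K)).injective,
    fun b P hP hPd D hD => ?_⟩
  · have h1 : tns t' (v 0) M (fun j => D0 (finProdFinEquiv.symm j).2) = v 0 := by
      rw [tns_apply, Finset.prod_eq_one, mul_one]
      intro c _
      have h2 : mtx t' (fun j => D0 (finProdFinEquiv.symm (finProdFinEquiv (c, j))).2) = 1 := by
        refine Matrix.ext fun i j => ?_
        rw [Matrix.one_apply]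
        change D0 (finProdFinEquiv.symm (finProdFinEquiv (c, i))).2 (t' j) = _
        rw [Equiv.symm_apply_apply]
        exact hD0 i j
      rw [h2, Matrix.det_one]
    rw [h0] at h1
    exact hv 0 h1.symm
  · have h1 : v b / v 0 * tns t' (v 0) M D = tns t' (v b) M D := by
      rw [tns_apply, tns_apply, ← mul_assoc, div_mul_cancel₀ _ (hv 0)]
    rw [h1]
    refine tns_reg hM (fun G hG _ => ?_) D hD
    have h2 := hest P hP hPd G hG (fun i f hf => ?_) b
    · rcases h2 with h2 | h2
      · exact Or.inl h2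
      · right
        rw [mul_zero, neg_zero] at h2
        exact_mod_cast h2
    · obtain ⟨c, rfl⟩ := IntermediateField.mem_bot.1 hf
      exact (G i).map_algebraMap c

/-- **Tensor differentials from towers.** -/
theorem tower_tens {N l : ℕ} (hN : Algebra.trdeg ℂ K = N) {S : Set (Place ℂ K)}
    {E : Fin (l + 1) → IntermediateField ℂ K} {D : Fin (l + 1) → ℕ} {e lam : Fin l → ℕ}
    (hE0 : E 0 = ⊥) (hT : IsTower S (fun _ => 0) E D e lam) :
    ∃ M : ℕ, 0 < M ∧ ∃ (ω : MultilinearMap K
        (fun _ : Fin (M * D (Fin.last l)) => Derivation ℂ K K) K)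
      (f : Fin (∑ i, lam i + 1) → K), ω ≠ 0 ∧ f 0 = 1 ∧
      AlgebraicIndependent ℂ (fun i : Fin (∑ i, lam i) => f i.succ) ∧
      ∀ b, ∀ P ∈ S, Divisorial N P → ∀ G : Fin (M * D (Fin.last l)) → Derivation ℂ K K,
        (∀ j, DerReg P (G j)) → P.Reg (f b * ω G) := by
  have h1 := chain_pp l E (fun i => (hT.2 i).1) D hT.1 e lam (fun i => (hT.2 i).2.1)
    (fun i => part_step (N := N) (fun _ _ => le_rfl) hT hN i)
  have h2 : HasPart N S (fun _ => 0) (E (Fin.last l)) (E 0) (∑ i, e i) (∑ i, lam i) := by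
    refine h1.mono fun P _ => ?_
    unfold hor
    split_ifs <;> simp
  have hsum : D (Fin.last l) = D 0 + ∑ i, e i := dims fun i => (hT.2 i).2.1
  have hD0 : D 0 = 0 := by
    have h2 := hT.1 0
    rw [hE0] at h2
    have h3 : Algebra.trdeg ℂ (⊥ : IntermediateField ℂ K) = 0 := by
      refine trdeg_eq_zero_iff.2 ?_
      infer_instance
    rw [h3] at h2
    exact_mod_cast h2.symm
  rw [hD0, zero_add] at hsum
  rw [hsum]
  exact part_tens hE0 h2

end Pool.Agent.X180.OD
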